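import Pool.Graph.R_seed8.Helper386.D5V.Helper386_FF_Riemann

/-!
Function fields of one variable: degrees of divisors with rational coefficients, bounds.
-/

set_option autoImplicit false
set_option linter.overlappingInstances false
set_option linter.unusedSectionVars false

open FF Module

namespace Pool.Agent.Helper7.CV

section

variable {k K : Type} [Field k] [Field K] [Algebra k K] [CharZero k] [IsFF k K]

/-- the degree of a divisor with rational coefficients -/
noncomputable def qdeg (D : Place k K →₀ ℚ) : ℚ := D.sum fun P a => a * P.deg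

theorem qdeg_add (D E : Place k K →₀ ℚ) : qdeg (D + E) = qdeg D + qdeg E := by
  unfold qdeg
  rw [Finsupp.sum_add_index']
  · intro P
    rw [zero_mul]
  · intro P a b
    rw [add_mul]

theorem qdeg_smul (c : ℚ) (D : Place k K →₀ ℚ) : qdeg (c • D) = c * qdeg D := by
  unfold qdeg
  rw [Finsupp.sum_smul_index', Finsupp.sum, Finsupp.sum, Finset.mul_sum]
  · refine Finset.sum_congr rfl fun P _ => ?_
    rw [smul_eq_mul, mul_assoc]
  · intro P
    rw [zero_mul]

theorem qdeg_nonneg {D : Place k K →₀ ℚ} (h : ∀ P, 0 ≤ D P) : 0 ≤ qdeg D :=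
  Finset.sum_nonneg fun P _ => mul_nonneg (h P) (Nat.cast_nonneg _)

/-- integral divisors -/
noncomputable def toQ (D : Place k K →₀ ℤ) : Place k K →₀ ℚ :=
  D.mapRange (fun a : ℤ => (a : ℚ)) (by simp)

theorem toQ_apply (D : Place k K →₀ ℤ) (P : Place k K) : toQ D P = D P := rfl

theorem qdeg_toQ (D : Place k K →₀ ℤ) : qdeg (toQ D) = ddeg D := by
  unfold qdeg toQ ddeg
  rw [Finsupp.sum_mapRange_index]
  · rw [Finsupp.sum, Finsupp.sum]
    push_cast
    rfl
  · intro P
    rw [zero_mul]

theorem qdeg_mono {D E : Place k K →₀ ℚ} (h : ∀ P, D P ≤ E P) : qdeg D ≤ qdeg E := by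
  have h1 : E = D + (E + (-1 : ℚ) • D) := by
    ext P
    simp
  rw [h1, qdeg_add]
  have h2 : 0 ≤ qdeg (E + (-1 : ℚ) • D) := by
    refine qdeg_nonneg fun P => ?_
    have := h P
    simp only [Finsupp.coe_add, Pi.add_apply, Finsupp.smul_apply, smul_eq_mul]
    linarith
  linarith

/-- a nonzero section -/
theorem qdeg_of_section {D : Place k K →₀ ℚ} {f : K}
    (h : ∀ P : Place k K, 0 ≤ D P + (P.ord f : ℚ)) : 0 ≤ qdeg D := by
  have h1 : 0 ≤ qdeg (D + toQ (divisor k f)) := qdeg_nonneg fun P => by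
    rw [Finsupp.coe_add, Pi.add_apply, toQ_apply, divisor_apply]
    exact h P
  rw [qdeg_add, qdeg_toQ, ddeg_divisor] at h1
  simpa using h1

/-- the common denominator -/
theorem exists_int (D : Place k K →₀ ℚ) :
    ∃ (m : ℕ) (E : Place k K →₀ ℤ), 1 ≤ m ∧ ∀ P, (E P : ℚ) = m * D P := by
  induction D using Finsupp.induction with
  | zero => exact ⟨1, 0, le_rfl, fun P => by simp⟩
  | single_add Q a D hQ ha ih =>
    obtain ⟨m, E, hm, hE⟩ := ih
    refine ⟨m * a.den, a.den • E + Finsupp.single Q (m * a.num), Nat.mul_pos hm a.den_pos,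
      fun P => ?_⟩
    have h1 : (a.den : ℚ) * a = a.num := by
      rw [mul_comm]
      exact Rat.mul_den_eq_num a
    rw [Finsupp.coe_add, Pi.add_apply, Finsupp.coe_add, Pi.add_apply, Finsupp.smul_apply]
    by_cases hP : P = Q
    · subst hP
      rw [Finsupp.single_eq_same, Finsupp.single_eq_same, nsmul_eq_mul]
      push_cast
      rw [hE, mul_add, ← h1]
      ring
    · rw [Finsupp.single_eq_of_ne hP, Finsupp.single_eq_of_ne hP, nsmul_eq_mul]
      push_cast
      rw [hE]
      ring

/-- the round down -/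
noncomputable def fl (D : Place k K →₀ ℚ) : Place k K →₀ ℤ :=
  D.mapRange (fun a : ℚ => ⌊a⌋) (by simp)

theorem fl_apply (D : Place k K →₀ ℚ) (P : Place k K) : fl D P = ⌊D P⌋ := rfl

theorem ddeg_fl (D : Place k K →₀ ℚ) : (ddeg (fl D) : ℚ) ≤ qdeg D := by
  rw [← qdeg_toQ]
  refine qdeg_mono fun P => ?_
  rw [toQ_apply, fl_apply]
  exact Int.floor_le _

theorem mem_fl {D : Place k K →₀ ℚ} {f : K} (h : f = 0 ∨ ∀ P : Place k K, 0 ≤ D P + (P.ord f : ℚ)) :
    f ∈ LL (fl D) := by
  rw [mem_LL]
  refine h.imp_right fun h P => ?_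
  rw [fl_apply]
  have h1 : ((-(P.ord f) : ℤ) : ℚ) ≤ D P := by
    push_cast
    linarith [h P]
  have := Int.le_floor.2 h1
  omega

variable (hk : ∀ x : K, IsAlgebraic k x → ∃ a : k, algebraMap k K a = x)

include hk in
theorem ell_zero_le : ell (0 : Place k K →₀ ℤ) ≤ 1 := by
  have h1 : LL (0 : Place k K →₀ ℤ) ≤ Submodule.span k {(1 : K)} := by
    intro f hf
    rw [mem_LL] at hf
    have h2 : IsAlgebraic k f := by
      by_contra h3
      rcases hf with rfl | hf
      · exact h3 (isAlgebraic_zero)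
      · have h4 := ddeg_polar_pos (k := k) (x := f) h3
        have h5 : polar (k := k) f = 0 := by
          ext P
          rw [polar_apply]
          have := hf P
          simp only [Finsupp.coe_zero, Pi.zero_apply, neg_zero] at this ⊢
          omega
        rw [h5, ddeg_zero] at h4
        omega
    obtain ⟨a, ha⟩ := hk f h2
    rw [Submodule.mem_span_singleton]
    exact ⟨a, by rw [Algebra.smul_def, mul_one, ha]⟩
  have h2 := Submodule.finrank_mono h1
  have h3 := finrank_span_le_card (R := k) ({(1 : K)} : Set K)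
  simp only [Set.toFinset_singleton, Finset.card_singleton] at h3
  unfold ell
  exact_mod_cast h2.trans h3

include hk in
theorem ell_le_deg (E : Place k K →₀ ℤ) : ell E ≤ 1 + max (ddeg E) 0 := by
  by_cases h : 0 < ell E
  · obtain ⟨z, hz, hz0⟩ := exists_ne_zero_of_ell_pos h
    rw [mem_LL' hz0] at hz
    have h1 : (0 : Place k K →₀ ℤ) ≤ E + divisor k z := by rwa [add_comm]
    have h2 := ell_le h1
    rw [ell_add_divisor _ hz0, ddeg_add, ddeg_divisor, ddeg_zero] at h2
    have h3 := ell_zero_le hk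
    have := le_max_left (ddeg E) 0
    omega
  · have := le_max_right (ddeg E) 0
    omega

/-- two independent sections -/
theorem exists_two {E : Place k K →₀ ℤ} (h : 2 ≤ ell E) : ∃ f : Fin 2 → K, (∀ i, f i ≠ 0) ∧
    (∀ i, f i ∈ LL E) ∧ ∀ a : k, f 1 / f 0 ≠ algebraMap k K a := by
  have h1 : 2 ≤ finrank k (LL E) := by
    unfold ell at h
    exact_mod_cast h
  obtain ⟨g, hg⟩ := exists_linearIndependent_of_le_finrank h1
  have hg' : LinearIndependent k (fun i => (g i : K)) :=
    hg.map' (LL E).subtype (Submodule.ker_subtype _)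
  refine ⟨fun i => (g i : K), fun i => hg'.ne_zero i, fun i => (g i).2, fun a ha => ?_⟩
  have h0 : (g 0 : K) ≠ 0 := hg'.ne_zero 0
  have h2 : (g 1 : K) = a • (g 0 : K) := by
    rw [Algebra.smul_def, ← ha, div_mul_cancel₀ _ h0]
  rw [Fintype.linearIndependent_iff] at hg'
  have h3 := hg' ![a, -1] (by
    rw [Fin.sum_univ_two]
    simp [h2]) 1
  simp at h3

/-- independent sections -/
theorem card_le_ell {E : Place k K →₀ ℤ} {s : ℕ} {e : Fin s → K} (he : LinearIndependent k e)
    (hm : ∀ i, e i ∈ LL E) [FiniteDimensional k (LL E)] : (s : ℤ) ≤ ell E := by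
  have h1 : LinearIndependent k (fun i => (⟨e i, hm i⟩ : LL E)) :=
    LinearIndependent.of_comp (LL E).subtype (by exact he)
  have h2 := h1.fintype_card_le_finrank
  rw [Fintype.card_fin] at h2
  unfold ell
  exact_mod_cast h2

end

end Pool.Agent.Helper7.CV
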