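import Pool.Agent.Helper7.CV.Disc
import Pool.Agent.Helper7.CV.Gen

/-!
Fibrations by curves: all places of the function field over the field of the base are prime divisors,
the degree of the divisor on the generic fibre is zero.
-/

set_option autoImplicit false
set_option linter.overlappingInstances false
set_option linter.unusedSectionVars false

open FF Module Pool.Agent.W602.GT Pool.Agent.Y172 Pool.Agent.R887 Pool.Agent.N110
open Pool.Agent.NH31 Pool.Agent.Helper7.CP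

namespace Pool.Agent.Helper7.CV

section

variable {K : Type} [Field K] [Algebra ℂ K] {N m : ℕ} {y : Fin (N + 1) → K}
variable {F : IntermediateField ℂ K}

theorem isFF [Algebra.EssFiniteType ℂ K] (hn : Algebra.trdeg ℂ K = (m + 1 : ℕ))
    (hF : Algebra.trdeg ℂ F = m) : IsFF F K := by
  refine ⟨Algebra.EssFiniteType.of_comp ℂ F K, ?_⟩
  have h1 : Algebra.trdeg ℂ F + Algebra.trdeg F K = Algebra.trdeg ℂ K :=
    trdeg_add_eq ℂ F
  rw [hF, hn] at h1
  push_cast at h1
  exact Cardinal.eq_of_add_eq_add_left h1 (Cardinal.natCast_lt_aleph0)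

theorem drop_hor (Q : Place F K) : Horizontal F (dropP F Q) := fun f hf hf0 =>
  Q.ord_const (c := (⟨f, hf⟩ : F)) fun h => hf0 (congrArg Subtype.val h)

theorem drop_lift {P : Place ℂ K} (hP : Horizontal F P) : dropP F (liftP P F hP) = P := rfl

theorem drop_inj {Q Q' : Place F K} (h : dropP F Q = dropP F Q') : Q = Q' := by
  have h1 : (dropP F Q).ord = (dropP F Q').ord := by rw [h]
  exact Place.ext h1

theorem psd_zero {D P0 : Place ℂ K → ℚ} {t m' : ℕ} {u : Fin t → K}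
    (hb : Base y D t F P0 m' u) : PsD y D := by
  refine hb.psd.mono fun P hP => ?_
  have := hb.eff.1 P hP
  rw [Pi.sub_apply]
  linarith

/-- **All places of `K` over `F` are prime divisors of `X`.** -/
theorem all_prime (hy : NormalModel y) [IsFF F K] {D P0 : Place ℂ K → ℚ} {t m' : ℕ}
    {u : Fin t → K} (hb : Base y D t F P0 m' u) (Q : Place F K) :
    IsPrimeDivisor y (dropP F Q) := by
  classical
  by_contra hQ
  obtain ⟨γ, N', h1, -⟩ := riemann F K
  obtain ⟨j, hj⟩ : ∃ j : ℕ, j = γ.toNat + 2 := ⟨_, rfl⟩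
  have h2 : 2 ≤ ell (Finsupp.single Q (j : ℤ)) := by
    have h3 := h1 (Finsupp.single Q (j : ℤ))
    rw [ddeg_single] at h3
    have h4 : (j : ℤ) * 1 ≤ j * Q.deg := by
      refine mul_le_mul_of_nonneg_left ?_ (by positivity)
      exact_mod_cast Q.deg_pos
    have h5 := Int.self_le_toNat γ
    have h6 : (j : ℤ) = γ.toNat + 2 := by exact_mod_cast hj
    omega
  obtain ⟨f, hf0, hf, hfr⟩ := exists_two h2
  have hps : PsD y (D + 0 • P0 - 0) := by
    refine (psd_zero hb).mono fun P _ => ?_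
    simp
  have h3 := fibre_le hy (A := 0) (by
    refine Set.finite_empty.subset ?_
    rintro P ⟨-, h⟩
    exact h rfl) hb hps (m1 := 1) le_rfl hf0 (fun i P hP hh => ?_)
  · exact hfr ⟨_, h3⟩ rfl
  · rw [Pi.zero_apply, mul_zero, zero_add]
    have h4 := ((mem_LL.1 (hf i)).resolve_left (hf0 i)) (liftP P F hh)
    have h5 : liftP P F hh ≠ Q := by
      rintro rfl
      exact hQ (by rwa [drop_lift hh])
    rw [Finsupp.single_eq_of_ne h5] at h4
    have h6 : 0 ≤ P.ord (f i) := by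
      have : (liftP P F hh).ord (f i) = P.ord (f i) := rfl
      omega
    exact_mod_cast h6

theorem exists_res (hall : ∀ Q : Place F K, IsPrimeDivisor y (dropP F Q)) {D : Place ℂ K → ℚ}
    (hD : FinSup y D) : ∃ R : Place F K →₀ ℚ, ∀ Q, R Q = D (dropP F Q) := by
  have h1 : (Function.support fun Q : Place F K => D (dropP F Q)).Finite := by
    refine Set.Finite.subset (Set.Finite.preimage (f := fun Q : Place F K => dropP F Q)
      (fun a _ b _ h => drop_inj h) hD) ?_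
    intro Q hQ
    exact ⟨hall Q, hQ⟩
  exact ⟨Finsupp.ofSupportFinite _ h1, fun Q => rfl⟩

/-- the degree is not negative -/
theorem deg_nonneg [IsFF F K] (hall : ∀ Q : Place F K, IsPrimeDivisor y (dropP F Q))
    {D : Place ℂ K → ℚ} (hps : PsD y D) {R : Place F K →₀ ℚ}
    (hR : ∀ Q, R Q = D (dropP F Q)) : 0 ≤ qdeg R := by
  obtain ⟨H, hH, h⟩ := hps
  obtain ⟨RH, hRH⟩ := exists_res hall hH.2
  by_contra hcon
  push Not at hcon
  have hRH0 : 0 ≤ qdeg RH := qdeg_nonneg fun Q => by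
    rw [hRH]
    exact hH.1 _ (hall Q)
  obtain ⟨δ, hδ⟩ : ∃ δ : ℚ, δ = -qdeg R / (qdeg RH + 1) := ⟨_, rfl⟩
  have hδ0 : 0 < δ := by
    rw [hδ]
    apply div_pos <;> linarith
  obtain ⟨m1, b, hm1, hb, f, hf0, hf⟩ := h ((δ / 2 : ℚ) : ℝ) (by positivity)
  have hb' : (b : ℚ) ≤ δ / 2 * m1 := by exact_mod_cast hb
  have h1 : 0 ≤ qdeg ((m1 : ℚ) • R + (b : ℚ) • RH) := qdeg_of_section (f := f) fun Q => by
    have h2 := (hf _ (hall Q)).resolve_left hf0
    simp only [Finsupp.coe_add, Pi.add_apply, Finsupp.smul_apply, smul_eq_mul, hR, hRH]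
    simp only [Pi.add_apply, smul_ap] at h2
    have h3 : (dropP F Q).ord f = Q.ord f := rfl
    rw [h3] at h2
    linarith
  rw [qdeg_add, qdeg_smul, qdeg_smul] at h1
  have h2 : (0 : ℚ) < m1 := by exact_mod_cast hm1
  have h3 : δ * (qdeg RH + 1) = -qdeg R := by
    rw [hδ]
    field_simp
  have h4 : (b : ℚ) * qdeg RH ≤ δ / 2 * m1 * qdeg RH := mul_le_mul_of_nonneg_right hb' hRH0
  have h5 : 0 ≤ m1 * (qdeg R + δ / 2 * qdeg RH) := by nlinarith
  have h6 : 0 ≤ qdeg R + δ / 2 * qdeg RH := (mul_nonneg_iff_of_pos_left h2).1 h5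
  nlinarith

/-- the degree is not positive -/
theorem deg_nonpos (hy : NormalModel y) [IsFF F K]
    {D P0 : Place ℂ K → ℚ} (hD : FinSup y D) {t m' : ℕ} {u : Fin t → K}
    (hb : Base y D t F P0 m' u) {R : Place F K →₀ ℚ} (hR : ∀ Q, R Q = D (dropP F Q)) :
    qdeg R ≤ 0 := by
  by_contra hcon
  push Not at hcon
  obtain ⟨m1, E, hm1, hE⟩ := exists_int R
  have hm1' : (0 : ℚ) < m1 := by exact_mod_cast hm1
  have h1 : (ddeg E : ℚ) = m1 * qdeg R := by
    rw [← qdeg_toQ, ← qdeg_smul]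
    congr 1
    ext Q
    rw [toQ_apply, hE, Finsupp.smul_apply, smul_eq_mul]
  have h2 : 1 ≤ ddeg E := by
    have h3 : (0 : ℚ) < ddeg E := by
      rw [h1]
      positivity
    have : 0 < ddeg E := by exact_mod_cast h3
    omega
  obtain ⟨γ, N', h3, -⟩ := riemann F K
  obtain ⟨j, hj⟩ : ∃ j : ℕ, j = γ.toNat + 2 := ⟨_, rfl⟩
  have h4 : 2 ≤ ell (j • E) := by
    have h5 := h3 (j • E)
    rw [ddeg_nsmul] at h5
    have h6 : (j : ℤ) * 1 ≤ j * ddeg E := mul_le_mul_of_nonneg_left h2 (by positivity)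
    have h7 := Int.self_le_toNat γ
    have h8 : (j : ℤ) = γ.toNat + 2 := by exact_mod_cast hj
    omega
  obtain ⟨f, hf0, hf, hfr⟩ := exists_two h4
  have h5 := fibre_le' hy hD hb (m1 := j * m1) (Nat.mul_pos (by omega) hm1) hf0
    (fun i P hP hh => ?_)
  · exact hfr ⟨_, h5⟩ rfl
  · have h6 := ((mem_LL.1 (hf i)).resolve_left (hf0 i)) (liftP P F hh)
    have h7 : (liftP P F hh).ord (f i) = P.ord (f i) := rfl
    have h8 : (((j • E) (liftP P F hh) : ℤ) : ℚ) = (j * m1 : ℕ) * D P := by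
      rw [Finsupp.smul_apply, nsmul_eq_mul]
      push_cast
      rw [hE, hR, drop_lift hh]
      ring
    rw [h7] at h6
    have h9 : ((-((j • E) (liftP P F hh)) : ℤ) : ℚ) ≤ (P.ord (f i) : ℚ) := by exact_mod_cast h6
    push_cast at h9 h8
    push_cast
    linarith

/-- the spaces of sections on the generic fibre are bounded -/
theorem fibre_bound [IsFF F K] (hk : ∀ x : K, IsAlgebraic F x → x ∈ F)
    (hall : ∀ Q : Place F K, IsPrimeDivisor y (dropP F Q))
    {D : Place ℂ K → ℚ} {R : Place F K →₀ ℚ} (hR : ∀ Q, R Q = D (dropP F Q))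
    (hR0 : qdeg R ≤ 0) {H : Place ℂ K → ℚ} (hH : Effective y H) :
    ∃ B : ℕ, ∀ m, 1 ≤ m → ∀ (s : ℕ) (e : Fin s → K), LinearIndependent F e →
      (∀ i, Hor y F (m • D + H) (e i)) → s ≤ B := by
  obtain ⟨RH, hRH⟩ := exists_res hall hH.2
  have hRH0 : 0 ≤ qdeg RH := qdeg_nonneg fun Q => by
    rw [hRH]
    exact hH.1 _ (hall Q)
  obtain ⟨B, hB⟩ := exists_nat_ge (1 + qdeg RH)
  refine ⟨B, fun m1 hm1 s e he hs => ?_⟩
  obtain ⟨T, hT⟩ : ∃ T : Place F K →₀ ℚ, T = (m1 : ℚ) • R + RH := ⟨_, rfl⟩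
  have h1 : (s : ℤ) ≤ ell (fl T) := by
    refine card_le_ell he fun i => mem_fl ?_
    by_cases h0 : e i = 0
    · exact Or.inl h0
    · refine Or.inr fun Q => ?_
      have h2 := (hs i _ (hall Q) (drop_hor Q)).resolve_left h0
      rw [hT, Finsupp.coe_add, Pi.add_apply, Finsupp.smul_apply, smul_eq_mul, hR, hRH]
      simp only [Pi.add_apply, smul_ap] at h2
      exact h2
  have h2 := ell_le_deg (fun x hx => ⟨⟨x, hk x hx⟩, rfl⟩) (fl T)
  have h3 : (ddeg (fl T) : ℚ) ≤ qdeg RH := by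
    refine (ddeg_fl T).trans ?_
    rw [hT, qdeg_add, qdeg_smul]
    have : (m1 : ℚ) * qdeg R ≤ 0 := mul_nonpos_of_nonneg_of_nonpos (by positivity) hR0
    linarith
  have h4 : ((max (ddeg (fl T)) 0 : ℤ) : ℚ) ≤ qdeg RH := by
    push_cast
    exact max_le h3 hRH0
  have h5 : ((s : ℤ) : ℚ) ≤ (1 + max (ddeg (fl T)) 0 : ℤ) := by exact_mod_cast h1.trans h2
  have h6 : (s : ℚ) ≤ B := by
    push_cast at h5 h4
    linarith
  exact_mod_cast h6

end

end Pool.Agent.Helper7.CV
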