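import Pool.Agent.Helper7.CV.Frame

/-!
The discrepancy of a frame adapted to a fibration by curves, along the horizontal prime divisors.
-/

set_option autoImplicit false
set_option linter.overlappingInstances false
set_option linter.unusedSectionVars false

open FF Module Pool.Agent.W602.GT Pool.Agent.Y172 Pool.Agent.R887 Pool.Agent.N110
open Pool.Agent.NH31 Pool.Agent.Helper7.CP

namespace Pool.Agent.Helper7.CV

section

variable {K : Type} [Field K] [Algebra ℂ K] {N m : ℕ} {y : Fin (N + 1) → K}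

/-- independent elements of `F` are independent at the places which are trivial on `F` -/
theorem units_of_hor {F : IntermediateField ℂ K} {u : Fin m → K} (hu : AlgebraicIndependent ℂ u)
    (hm : ∀ i, u i ∈ F) {P : Place ℂ K} (hP : Horizontal F P) (p : MvPolynomial (Fin m) ℂ)
    (hp : p ≠ 0) : MvPolynomial.aeval u p ≠ 0 ∧ P.ord (MvPolynomial.aeval u p) = 0 := by
  have h1 : MvPolynomial.aeval u p ≠ 0 := by
    intro h
    exact hp ((algebraicIndependent_iff.1 hu) p h)
  refine ⟨h1, hP _ ?_ h1⟩
  obtain ⟨u', hu'⟩ : ∃ u' : Fin m → F, u' = fun i => ⟨u i, hm i⟩ := ⟨_, rfl⟩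
  have h2 : MvPolynomial.aeval u p = ((MvPolynomial.aeval u' p : F) : K) := by
    have h3 := MvPolynomial.comp_aeval_apply u' F.val p
    have h4 : (fun i => F.val (u' i)) = u := by
      funext i
      rw [hu']
      rfl
    rw [h4] at h3
    exact h3.symm
  rw [h2]
  exact (MvPolynomial.aeval u' p).2

/-- the determinant of a matrix with only one column which is not one of the identity -/
theorem det_col (M : Matrix (Fin (m + 1)) (Fin (m + 1)) K)
    (hM : ∀ i (j : Fin m), M i j.succ = if i = j.succ then 1 else 0) : M.det = M 0 0 := by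
  rw [Matrix.det_succ_row_zero]
  rw [Fin.sum_univ_succ]
  have h1 : ∀ j : Fin m, M 0 j.succ = 0 := by
    intro j
    rw [hM, if_neg]
    exact (Fin.succ_ne_zero j).symm
  have h2 : (M.submatrix Fin.succ (Fin.succAbove 0)) = 1 := by
    ext i j
    rw [Matrix.submatrix_apply, Fin.succAbove_zero, hM, Matrix.one_apply]
    simp
  rw [h2, Matrix.det_one]
  simp [h1]

/-- **The discrepancy along horizontal prime divisors.** -/
theorem disc_hor [Algebra.EssFiniteType ℂ K] (hn : Algebra.trdeg ℂ K = (m + 1 : ℕ))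
    {F : IntermediateField ℂ K} {u : Fin m → K} (hu : AlgebraicIndependent ℂ u)
    (hm : ∀ i, u i ∈ F) {x : K} {E : Fin (m + 1) → Derivation ℂ K K}
    (hE : ∀ i j, E i ((Fin.cons x u : Fin (m + 1) → K) j) = if i = j then 1 else 0)
    {c : Place ℂ K → ℤ} (hc : IsDisc y E c) {P : Place ℂ K} (hP : IsPrimeDivisor y P)
    (hh : Horizontal F P) {t : K} (ht : P.ord t = 1) : c P = -(P.ord (E 0 t)) := by
  obtain ⟨E', hl⟩ := frame_of hn P ht u (units_of_hor hu hm hh)
  -- the expansion of `E 0`
  have h1 : E 0 = E 0 t • E' 0 := by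
    have h2 := Pool.Agent.W73.PG.PULL.expand _ hl.bas E' hl.dual (E 0)
    rw [Fin.sum_univ_succ] at h2
    have h3 : ∀ j : Fin m, E 0 ((Fin.cons t u : Fin (m + 1) → K) j.succ) = 0 := by
      intro j
      have h4 := hE 0 j.succ
      rw [Fin.cons_succ] at h4 ⊢
      rw [h4, if_neg (Fin.succ_ne_zero j).symm]
    simp only [h3, zero_smul, Finset.sum_const_zero, add_zero, Fin.cons_zero] at h2
    exact h2.symm
  have h2 : E 0 x = 1 := by
    have := hE 0 0
    rwa [Fin.cons_zero, if_pos rfl] at this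
  have h3 : E 0 t * E' 0 x = 1 := by
    rw [← h2]
    conv_rhs => rw [h1]
    rfl
  have hne : E 0 t ≠ 0 := left_ne_zero_of_mul_eq_one h3
  have hne' : E' 0 x ≠ 0 := right_ne_zero_of_mul_eq_one h3
  have h4 : P.ord (E 0 t) + P.ord (E' 0 x) = 0 := by
    rw [← P.ord_mul hne hne', h3, P.ord_one]
  -- the form
  obtain ⟨X, hX⟩ : ∃ X : Fin (m + 1) → K, X = Fin.cons x u := ⟨_, rfl⟩
  have hE' : ∀ i j, E i (X j) = if i = j then 1 else 0 := by
    rw [hX]
    exact hE
  have hp := frm_pluri X 1 (1 : K)
  have he : frm X 1 (1 : K) E = 1 := frm_self hE' 1 1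
  have hg : frm X 1 (1 : K) E' = E' 0 x := by
    rw [frm, pow_one, mul_one, det_col]
    · rw [Matrix.of_apply, hX, Fin.cons_zero]
    · intro i j
      rw [Matrix.of_apply, hX, Fin.cons_succ]
      have := hl.dual i j.succ
      rwa [Fin.cons_succ] at this
  have key : ∀ r : ℚ, r ≤ P.ord (E' 0 x) ↔ r ≤ c P := by
    intro r
    have h5 := hc P hP 1 _ hp r
    rw [ordGe_iff hl hp, he, hg, P.ord_one] at h5
    simp only [hne', one_ne_zero, false_or] at h5
    rw [h5]
    push_cast
    constructor <;> intro h <;> linarith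
  have h6 : ((P.ord (E' 0 x) : ℤ) : ℚ) = c P := le_antisymm ((key _).1 le_rfl) ((key _).2 le_rfl)
  have h7 : P.ord (E' 0 x) = c P := by exact_mod_cast h6
  omega

end

end Pool.Agent.Helper7.CV
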