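import Pool.Agent.Helper7.CV.Curve

/-!
The conjecture of Campana and Peternell for divisors of Iitaka dimension `n - 1`.
-/

set_option autoImplicit false
set_option linter.overlappingInstances false
set_option linter.unusedSectionVars false

open FF Module Pool.Agent.W602.GT Pool.Agent.Y172 Pool.Agent.R887 Pool.Agent.N110
open Pool.Agent.NH31 Pool.Agent.Helper7.CP

namespace Pool.Agent.Helper7.CV

/-- divisors `W + D` of degree zero on a curve, `W` canonical and `D` effective, are torsion -/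
def CurveTriv : Prop := ∀ (k K : Type) [Field k] [Field K] [Algebra k K] [CharZero k] [IsFF k K],
  (∀ x : K, IsAlgebraic k x → x ∈ (algebraMap k K).range) → ∀ x : K, Transcendental k x →
  ∀ E : Derivation k K K, E x = 1 → ∀ W : Place k K →₀ ℤ,
  (∀ (P : Place k K) (t : K), P.ord t = 1 → W P = -P.ord (E t)) →
  ∀ D : Place k K →₀ ℚ, (∀ P, 0 ≤ D P) → (ddeg W : ℚ) + D.sum (fun P a => a * P.deg) = 0 →
  ∃ (m : ℕ) (f : K), 1 ≤ m ∧ f ≠ 0 ∧ ∀ P : Place k K, (0 : ℚ) ≤ m * ((W P : ℚ) + D P) + P.ord f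

section

variable {K : Type} [Field K] [Algebra ℂ K] {N m : ℕ} {y : Fin (N + 1) → K}

theorem indep_cons {k : ℕ} {u : Fin k → K} (hu : AlgebraicIndependent ℂ u) {x : K}
    (hx : ¬ IsAlgebraic (IntermediateField.adjoin ℂ (Set.range u)) x) :
    AlgebraicIndependent ℂ (Fin.cons x u : Fin (k + 1) → K) := by
  have h1 : Transcendental (Algebra.adjoin ℂ (Set.range u)) x := by
    intro h
    exact hx (IntermediateField.isAlgebraic_adjoin_iff.2 h)
  have h2 : AlgebraicIndependent ℂ (fun o : Option (Fin k) => o.elim x u) :=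
    (hu.option_iff_transcendental x).2 h1
  have h3 := h2.comp (fun i : Fin (k + 1) => (finSuccEquiv k i)) (finSuccEquiv k).injective
  have e1 : (fun o : Option (Fin k) => o.elim x u) ∘ (fun i : Fin (k + 1) => finSuccEquiv k i) =
      (Fin.cons x u : Fin (k + 1) → K) := by
    funext i
    refine Fin.cases ?_ (fun i => ?_) i
    · simp
    · simp
  rw [e1] at h3
  exact h3

/-- coordinates which extend coordinates of the base -/
theorem exists_adapted (hn : Algebra.trdeg ℂ K = (m + 1 : ℕ)) {u : Fin m → K}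
    (hu : AlgebraicIndependent ℂ u) : ∃ (x : K) (E : Fin (m + 1) → Derivation ℂ K K),
      IsTranscendenceBasis ℂ (Fin.cons x u : Fin (m + 1) → K) ∧
      (∀ i j, E i ((Fin.cons x u : Fin (m + 1) → K) j) = if i = j then 1 else 0) ∧
      x ∉ acl ℂ (Set.range u) := by
  obtain ⟨x, hx⟩ : ∃ x, x ∉ acl ℂ (Set.range u) := by
    by_contra hcon
    push Not at hcon
    have h1 : Algebra.IsAlgebraic (Algebra.adjoin ℂ (Set.range u)) K :=
      ⟨fun x => IntermediateField.isAlgebraic_adjoin_iff.1 (mem_acl.1 (hcon x))⟩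
    have h2 := Algebra.IsAlgebraic.trdeg_le_cardinalMk ℂ (Set.range u) (A := K)
    have h3 := Cardinal.mk_range_le (f := u)
    rw [Cardinal.mk_fin] at h3
    have h4 := h2.trans h3
    rw [hn] at h4
    have h5 : m + 1 ≤ m := by exact_mod_cast h4
    omega
  have h1 := indep_cons hu (fun h => hx (mem_acl.2 h))
  have h2 : IsTranscendenceBasis ℂ (Fin.cons x u : Fin (m + 1) → K) := by
    apply h1.isTranscendenceBasis_of_lift_trdeg_le_of_finite
    rw [hn]
    simp
  obtain ⟨E, hE⟩ := Pool.Agent.W602.GT.exists_dual h2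
  refine ⟨x, E, h2, fun i j => ?_, hx⟩
  have h3 := congrFun (congrFun hE i) j
  rw [Matrix.of_apply, Matrix.one_apply] at h3
  exact h3

/-- a derivation which vanishes on `F` as a derivation over `F` -/
noncomputable def overF (F : IntermediateField ℂ K) (E : Derivation ℂ K K) (h : ∀ x ∈ F, E x = 0) :
    Derivation F K K :=
  Derivation.mk' { toFun := E
                   map_add' := map_add E
                   map_smul' := fun a z => by
                    rw [RingHom.id_apply]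
                    change E ((a : K) * z) = (a : K) * E z
                    rw [E.leibniz, h a a.2, smul_zero, add_zero]
                    rfl } (fun a b => E.leibniz a b)

theorem overF_apply {F : IntermediateField ℂ K} {E : Derivation ℂ K K}
    (h : ∀ x ∈ F, E x = 0) (z : K) : overF F E h z = E z := rfl

/-- a section on the generic fibre -/
theorem exists_sec (hT : CurveTriv) (hy : NormalModel y)
    (hn : Algebra.trdeg ℂ K = (m + 1 : ℕ)) {F : IntermediateField ℂ K} {P0 Δ : Place ℂ K → ℚ}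
    (hΔ : Effective y Δ) {m' : ℕ} {u : Fin m → K} {x : K} {E : Fin (m + 1) → Derivation ℂ K K}
    (hE : ∀ i j, E i ((Fin.cons x u : Fin (m + 1) → K) j) = if i = j then 1 else 0)
    (hx : x ∉ acl ℂ (Set.range u)) {c : Place ℂ K → ℤ}
    (hcf : {P | IsPrimeDivisor y P ∧ c P ≠ 0}.Finite) (hc : IsDisc y E c)
    (hb : Base y (fun P => (c P : ℚ) + Δ P) m F P0 m' u) :
    (∃ m1, 1 ≤ m1 ∧ ∃ s0 : K, s0 ≠ 0 ∧ Hor y F (m1 • fun P => (c P : ℚ) + Δ P) s0) ∧
      ∀ H, Effective y H → ∃ B : ℕ, ∀ m1, 1 ≤ m1 → ∀ (s : ℕ) (e : Fin s → K),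
        LinearIndependent F e → (∀ i, Hor y F (m1 • (fun P => (c P : ℚ) + Δ P) + H) (e i)) →
        s ≤ B := by
  classical
  have hess := hy.ess
  have hFF : IsFF F K := isFF hn (trdeg_base hb.ind hb.fld)
  have hall : ∀ Q : Place F K, IsPrimeDivisor y (dropP F Q) := all_prime hy hb
  have hmem : ∀ i, u i ∈ F := hb.mem
  obtain ⟨D, hD⟩ : ∃ D : Place ℂ K → ℚ, D = fun P => (c P : ℚ) + Δ P := ⟨_, rfl⟩
  rw [← hD] at hb ⊢
  have hcs : FinSup y (fun P => (c P : ℚ)) := by
    refine hcf.subset ?_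
    rintro P ⟨hP, hne⟩
    exact ⟨hP, fun h => hne (by simp [h])⟩
  have hDs : FinSup y D := FinSup.of2 hcs hΔ.2 fun P h1 h2 => by
    rw [hD]
    show (c P : ℚ) + Δ P = 0
    rw [h1, h2, add_zero]
  obtain ⟨R, hR⟩ := exists_res hall hDs
  obtain ⟨RΔ, hRΔ⟩ := exists_res hall hΔ.2
  obtain ⟨W, hW⟩ : ∃ W : Place F K →₀ ℤ, ∀ Q, W Q = c (dropP F Q) := by
    have h1 : (Function.support fun Q : Place F K => c (dropP F Q)).Finite := by
      refine Set.Finite.subset (Set.Finite.preimage (f := fun Q : Place F K => dropP F Q)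
        (fun a _ b _ h => drop_inj h) hcf) ?_
      intro Q hQ
      exact ⟨hall Q, hQ⟩
    exact ⟨Finsupp.ofSupportFinite _ h1, fun Q => rfl⟩
  have hps := psd_zero hb
  have h0 : qdeg R = 0 := le_antisymm (deg_nonpos hy hDs hb hR) (deg_nonneg hall hps hR)
  refine ⟨?_, fun H hH => fibre_bound (fun x hx => hb.closed hx) hall hR h0.le hH⟩
  -- the canonical divisor
  have h1 : R = toQ W + RΔ := by
    ext Q
    rw [Finsupp.coe_add, Pi.add_apply, toQ_apply, hW, hRΔ, hR, hD]
  have h2 : (ddeg W : ℚ) + RΔ.sum (fun P a => a * P.deg) = 0 := by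
    have h3 := h0
    rw [h1, qdeg_add, qdeg_toQ] at h3
    exact h3
  have hker : ∀ z ∈ F, E 0 z = 0 := by
    have h3 : Kills (E 0) (acl ℂ (Set.range u)) := kills_acl (by
      rintro _ ⟨i, rfl⟩
      have h4 := hE 0 i.succ
      rw [Fin.cons_succ, if_neg (Fin.succ_ne_zero i).symm] at h4
      exact h4)
    intro z hz
    rw [hb.fld] at hz
    exact h3 z hz
  have hEx : E 0 x = 1 := by
    have := hE 0 0
    rwa [Fin.cons_zero, if_pos rfl] at this
  have hxt : Transcendental F x := by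
    intro h
    have h4 := hb.closed h
    rw [hb.fld] at h4
    exact hx h4
  obtain ⟨m1, f, hm1, hf0, hf⟩ := hT F K (fun z hz => ⟨⟨z, hb.closed hz⟩, rfl⟩) x hxt
    (overF F (E 0) hker) hEx W (fun Q t ht => by
      rw [hW, overF_apply]
      exact disc_hor hn hb.ind hmem hE hc (hall Q) (drop_hor Q) ht) RΔ (fun Q => by
      rw [hRΔ]
      exact hΔ.1 _ (hall Q)) h2
  refine ⟨m1, hm1, f, hf0, fun P hP hh => Or.inr ?_⟩
  have h3 := hf (liftP P F hh)
  rw [hW, hRΔ, drop_lift hh] at h3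
  rw [smul_ap, hD]
  exact h3

/-- **Divisors of Iitaka dimension `n - 1`.** -/
theorem kappa_curve (hT : CurveTriv) (hy : NormalModel y)
    (hn : Algebra.trdeg ℂ K = (m + 1 : ℕ)) {Δ A H : Place ℂ K → ℚ} (hΔ : Effective y Δ)
    (hA : FinSup y A) (hI : IitakaGe y A m) (hH : Effective y H)
    (hstr : ∀ k : ℕ, 1 ≤ k → ∃ η : (Fin (m + 1) → Derivation ℂ K K) → K,
      IsSection y (m + 1) k (k • (Δ - A) + H) η ∧ η ≠ 0) {l : ℕ} (hl : IitakaGe y A l) :
    KappaGe y (m + 1) Δ l := by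
  classical
  have hess := hy.ess
  have hps : PseudoEffective y (m + 1) (Δ - A) := by
    refine ⟨H, hH, fun δ hδ => ?_⟩
    obtain ⟨m2, hm2⟩ := exists_nat_ge (1 / δ)
    obtain ⟨η, hη, hη0⟩ := hstr (m2 + 1) (by omega)
    refine ⟨m2 + 1, 1, by omega, ?_, η, by rwa [one_smul], hη0⟩
    rw [div_le_iff₀ hδ] at hm2
    push_cast
    nlinarith
  have hps0 : PseudoEffective y (m + 1) Δ := psef_of_sub hps (hI.mono (Nat.zero_le _))
  -- the first frame
  obtain ⟨x0, E0, hx0, hE0⟩ := exists_crd hn (k := ℂ) (K := K)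
  have hfr0 : IsFrame E0 := fun F => ⟨fun j => F (x0 j),
    (Pool.Agent.W73.PG.PULL.expand x0 hx0 E0 hE0 F).symm⟩
  obtain ⟨c0, hcf0, hc0⟩ := exists_ordc hy hn hx0 hE0
  have hc0' : IsDisc y E0 c0 := hc0
  obtain ⟨t, F, P0, m', u, htn, hb0⟩ := exists_base hy hn ((psef_iff hE0 hfr0 hc0').1 hps0)
  have hsub : ∀ B : Place ℂ K → ℚ, PseudoEffective y (m + 1) (Δ - B) ↔
      PsD y ((fun P => (c0 P : ℚ) + Δ P) - B) := by
    intro B
    rw [psef_iff hE0 hfr0 hc0']
    constructor <;> intro h <;> refine h.mono fun P _ => ?_ <;>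
      simp only [Pi.sub_apply] <;> linarith
  have hlt : l ≤ t := hb0.le hA ((hsub A).1 hps) hl
  have hmt : m ≤ t := hb0.le hA ((hsub A).1 hps) hI
  rcases Nat.lt_or_ge m t with h1 | h1
  · obtain rfl : t = m + 1 := by omega
    exact kappaGe_mono ((kappaGe_iff hE0 hfr0 hc0').2 (big_of_top hn hb0)) hlt
  · obtain rfl : t = m := by omega
    -- the adapted frame
    obtain ⟨x, E, hx, hE, hxn⟩ := exists_adapted hn hb0.ind
    have hfr : IsFrame E := fun F => ⟨fun j => F ((Fin.cons x u : Fin (t + 1) → K) j),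
      (Pool.Agent.W73.PG.PULL.expand _ hx E hE F).symm⟩
    obtain ⟨c, hcf, hc'⟩ := exists_ordc hy hn hx hE
    have hc : IsDisc y E c := hc'
    have hsub' : ∀ B : Place ℂ K → ℚ, PseudoEffective y (t + 1) (Δ - B) ↔
        PsD y ((fun P => (c P : ℚ) + Δ P) - B) := by
      intro B
      rw [psef_iff hE hfr hc]
      constructor <;> intro h <;> refine h.mono fun P _ => ?_ <;>
        simp only [Pi.sub_apply] <;> linarith
    have hb : Base y (fun P => (c P : ℚ) + Δ P) t F P0 m' u :=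
      ⟨hb0.eff, hb0.pos, hb0.sec, (hsub' _).1 ((hsub _).2 hb0.psd), hb0.ind, hb0.fld, hb0.hor,
        fun B hB hB' => hb0.max B hB ((hsub _).1 ((hsub' _).2 hB'))⟩
    obtain ⟨⟨m1, hm1, s0, hs0, hs⟩, hbd⟩ := exists_sec hT hy hn hΔ hE hxn hcf hc hb
    refine kappaGe_mono ((kappaGe_iff hE hfr hc).2 (kappa_strong hy hn hb hA hI hH
      (fun k hk => ?_) hm1 hs0 hs hbd)) hlt
    obtain ⟨η, hη, hη0⟩ := hstr k hk
    refine ⟨η E, fun h0 => hη0 (pluri_zero hfr hη.1 h0), fun P hP => ?_⟩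
    have h1 := (isSection_iff hc hη.1).1 hη P hP
    refine h1.imp_right fun h2 => ?_
    simp only [Pi.add_apply, Pi.sub_apply, smul_ap] at h2 ⊢
    linarith

end

end Pool.Agent.Helper7.CV
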